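import Mathlib
import Pool.Agent.Y16.AF.StmP
import Pool.Agent.W793.YM.Meas

/-!
# Gauge fixing of the Schrödinger functional
-/

open MeasureTheory Matrix
open scoped Matrix.Norms.Frobenius Topology
open Pool.Agent.Y16.Gluon Pool.Agent.Y16.AF

namespace Pool.Agent.Y781.AF

set_option linter.unusedSectionVars false
set_option linter.unusedVariables false
set_option maxHeartbeats 4000000

noncomputable section

section alg

variable {N L : ℕ} {G : Subgroup (UU N)}

lemma mt_inj {g h : G} (H : mt g = mt h) : g = h := Subtype.ext (Subtype.ext H)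

lemma mt_mul (g h : G) : mt (g * h) = mt g * mt h := rfl

lemma mt_one : mt (1 : G) = 1 := rfl

lemma e_zero {T : Mt N} {e : ℝ → G} (he : ∀ t, mt (e t) = NormedSpace.exp (t • T)) : e 0 = 1 :=
  mt_inj (by rw [he, zero_smul, NormedSpace.exp_zero]; rfl)

lemma e_add {T : Mt N} {e : ℝ → G} (he : ∀ t, mt (e t) = NormedSpace.exp (t • T)) (s t : ℝ) :
    e (s + t) = e s * e t :=
  mt_inj (by
    rw [mt_mul, he, he, he, add_smul]
    exact Matrix.exp_add_of_commute _ _
      (((Commute.refl T).smul_left s).smul_right t))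

lemma tr_cyc (a b : G) : (trace (1 - mt (a * b))).re = (trace (1 - mt (b * a))).re := by
  rw [trace_sub, trace_sub, mt_mul, mt_mul, trace_mul_comm]

/-- The product of the first `t` time links over `x`. -/
def PP (V : Links L → G) : ℕ → Sp L → G
  | 0, _ => 1
  | t + 1, x => PP V t x * tv V t x

/-- The gauge transformation. -/
def gam (V : Links L → G) (t : ℕ) (x : Sp L) : G := if t < L then (PP V L 0)⁻¹ * PP V t x else 1

def bf (e : ℝ → G) (L : ℕ) (ε : ℝ) (t : ℕ) (j : Fin 3) : G :=
  if j = 0 then e (ε * t / (L : ℝ) ^ 2) else 1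

def ga (w : Links L) (V : Links L → G) : G :=
  match w.2 with
  | .inl t => (gam V t w.1)⁻¹
  | .inr s => (gam V (s.1 + 1) w.1)⁻¹

def gb (e : ℝ → G) (ε : ℝ) (w : Links L) (V : Links L → G) : G :=
  match w.2 with
  | .inl _ => 1
  | .inr s => bf e L ε (s.1 + 1) s.2 * gam V (s.1 + 1) (w.1 + Pi.single s.2 1)

/-- The transformation. -/
def Psi (e : ℝ → G) (ε : ℝ) (V : Links L → G) : Links L → G :=
  fun w => if dyn w then ga w V * V w * gb e ε w V else V w

/-- Spatial link variables with trivial boundary values. -/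
def WW (V : Links L → G) (t : ℕ) (x : Sp L) (j : Fin 3) : G :=
  if h : 0 < t ∧ t < L then V (x, .inr (⟨t - 1, by omega⟩, j)) else 1

lemma not_dyn_lt {x : Sp L} {s : ℕ} (hs : s < L) (h : s + 1 < L) :
    ¬dyn ((x, .inl ⟨s, hs⟩) : Links L) := by
  intro hd
  have := (hd ⟨s, hs⟩ rfl).1
  simp only at this
  omega

lemma not_dyn_zero {s : ℕ} (hs : s < L) : ¬dyn ((0, .inl ⟨s, hs⟩) : Links L) := by
  intro hd
  exact (hd ⟨s, hs⟩ rfl).2 rfl

lemma dyn_last {x : Sp L} {s : ℕ} (hs : s < L) (h : s + 1 = L) (hx : x ≠ 0) :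
    dyn ((x, .inl ⟨s, hs⟩) : Links L) := by
  intro t ht
  have h1 : (⟨s, hs⟩ : Fin L) = t := Sum.inl_injective ht
  subst h1
  exact ⟨h, hx⟩

lemma dyn_inr (x : Sp L) (s : Fin (L - 1) × Fin 3) : dyn ((x, .inr s) : Links L) := by
  intro t ht
  exact absurd ht (by simp)

lemma tv_dep {V V' : Links L → G} (h : ∀ w, ¬dyn w → V w = V' w) {s : ℕ} {x : Sp L}
    (hs : s + 1 < L ∨ x = 0) : tv V s x = tv V' s x := by
  unfold tv
  split_ifs with h1
  · rcases hs with hs | hs
    · exact h _ (not_dyn_lt h1 hs)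
    · subst hs
      exact h _ (not_dyn_zero h1)
  · rfl

lemma PP_dep {V V' : Links L → G} (h : ∀ w, ¬dyn w → V w = V' w) {x : Sp L} (t : ℕ)
    (ht : t < L ∨ x = 0) : PP V t x = PP V' t x := by
  induction t with
  | zero => rfl
  | succ t ih =>
    show PP V t x * tv V t x = PP V' t x * tv V' t x
    rw [ih (by rcases ht with h | h; · left; omega
               · right; exact h), tv_dep h ht]

lemma gam_dep {V V' : Links L → G} (h : ∀ w, ¬dyn w → V w = V' w) (x : Sp L) (t : ℕ) :
    gam V t x = gam V' t x := by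
  unfold gam
  split_ifs with h1
  · rw [PP_dep h L (Or.inr rfl), PP_dep h t (Or.inl h1)]
  · rfl

lemma tv_Psi (e : ℝ → G) (ε : ℝ) (V : Links L → G) {t : ℕ} (ht : t < L) (x : Sp L) :
    tv (Psi e ε V) t x = (gam V t x)⁻¹ * tv (fx V) t x * gam V (t + 1) x := by
  by_cases h1 : t + 1 < L
  · have e1 : tv (Psi e ε V) t x = tv V t x := by
      unfold tv Psi
      rw [dif_pos ht, dif_pos ht, if_neg (not_dyn_lt ht h1)]
    have e2 : tv (fx V) t x = 1 := by
      unfold tv fx
      rw [dif_pos ht, if_neg (not_dyn_lt ht h1)]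
    rw [e1, e2]
    unfold gam
    rw [if_pos ht, if_pos h1]
    show _ = _ * 1 * (_ * (PP V t x * tv V t x))
    group
  · have h2 : t + 1 = L := by omega
    have e3 : gam V (t + 1) x = 1 := by unfold gam; rw [if_neg h1]
    by_cases hx : x = 0
    · subst hx
      have e1 : tv (Psi e ε V) t 0 = tv V t 0 := by
        unfold tv Psi
        rw [dif_pos ht, dif_pos ht, if_neg (not_dyn_zero ht)]
      have e2 : tv (fx V) t 0 = 1 := by
        unfold tv fx
        rw [dif_pos ht, if_neg (not_dyn_zero ht)]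
      have e4 : PP V L 0 = PP V t 0 * tv V t 0 := by
        have : PP V (t + 1) 0 = PP V t 0 * tv V t 0 := rfl
        rw [← this, h2]
      rw [e1, e2, e3]
      unfold gam
      rw [if_pos ht, e4]
      group
    · have e1 : tv (Psi e ε V) t x = (gam V t x)⁻¹ * tv V t x * 1 := by
        unfold tv Psi
        rw [dif_pos ht, dif_pos ht, if_pos (dyn_last ht h2 hx)]
        rfl
      have e2 : tv (fx V) t x = tv V t x := by
        unfold tv fx
        rw [dif_pos ht, dif_pos ht, if_pos (dyn_last ht h2 hx)]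
      rw [e1, e2, e3]

lemma sv_Psi (hL : 2 ≤ L) {e : ℝ → G} (h0 : e 0 = 1) (ε : ℝ) (V : Links L → G) {t : ℕ}
    (ht : t ≤ L) (x : Sp L) (j : Fin 3) :
    sv e ε (Psi e ε V) t x j =
      (gam V t x)⁻¹ * (WW V t x j * bf e L ε t j) * gam V t (x + Pi.single j 1) := by
  have hL0 : (L : ℝ) ≠ 0 := by
    have : (0 : ℝ) < L := by exact_mod_cast (by omega : 0 < L)
    exact this.ne'
  by_cases h : 0 < t ∧ t < L
  · obtain ⟨s, rfl⟩ : ∃ s, t = s + 1 := ⟨t - 1, by omega⟩
    unfold sv WW
    rw [dif_pos h, dif_pos h]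
    have : Psi e ε V (x, .inr (⟨s + 1 - 1, by omega⟩, j)) =
        (gam V (s + 1) x)⁻¹ * V (x, .inr (⟨s + 1 - 1, by omega⟩, j)) *
          (bf e L ε (s + 1) j * gam V (s + 1) (x + Pi.single j 1)) := by
      unfold Psi
      rw [if_pos (dyn_inr _ _)]
      rfl
    rw [this]
    group
  · have e1 : WW V t x j = 1 := by unfold WW; rw [dif_neg h]
    unfold sv
    rw [dif_neg h, e1, one_mul]
    by_cases h1 : t = L
    · subst h1
      have e2 : ∀ y, gam V t y = 1 := fun y => by unfold gam; rw [if_neg (lt_irrefl _)]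
      rw [e2, e2]
      unfold bf
      by_cases hj : j = 0
      · rw [if_pos ⟨rfl, hj⟩, if_pos hj]
        have : ε * (t : ℝ) / (t : ℝ) ^ 2 = ε / t := by field_simp
        rw [this]
        group
      · rw [if_neg (fun h => hj h.2), if_neg hj]
        group
    · have h2 : t = 0 := by omega
      subst h2
      rw [if_neg (fun h => h1 h.1)]
      have e2 : ∀ y, gam V 0 y = (PP V L 0)⁻¹ := fun y => by
        unfold gam
        rw [if_pos (by omega : 0 < L)]
        show _ * 1 = _
        group
      rw [e2, e2]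
      unfold bf
      have e3 : ε * ((0 : ℕ) : ℝ) / (L : ℝ) ^ 2 = 0 := by simp
      rw [e3, h0]
      simp

def opt (U : Links L → G) (o : Option (AL L)) (y : Sp L) (b : Bool) : G :=
  match o with
  | none => 1
  | some a => if b then U (y, a) else (U (y, a))⁻¹

lemma opt_vT (V : Links L → G) (t : ℕ) (y : Sp L) (b : Bool) :
    opt (fx V) (vT L t) y b = if b then tv (fx V) t y else (tv (fx V) t y)⁻¹ := by
  unfold opt vT tv
  by_cases h : t < L
  · simp only [h, dif_pos]
  · simp only [h, dif_neg, not_false_eq_true]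
    cases b <;> simp

lemma opt_vS (V : Links L → G) (t : ℕ) (j : Fin 3) (y : Sp L) (b : Bool) :
    opt (fx V) (vS L t j) y b = if b then WW V t y j else (WW V t y j)⁻¹ := by
  unfold opt vS WW
  by_cases h : 0 < t ∧ t < L
  · simp only [h, dif_pos, and_self]
    have : fx V (y, .inr (⟨t - 1, by omega⟩, j)) = V (y, .inr (⟨t - 1, by omega⟩, j)) := by
      unfold fx
      rw [if_pos (dyn_inr _ _)]
    rw [this]
  · simp only [h, dif_neg, not_false_eq_true]
    cases b <;> simp

lemma lgT (V : Links L → G) (x : Sp L) (t : Fin L) (j : Fin 3) :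
    lg (fx V) (x, t, .inl j) 0 = (tv (fx V) t (x + Pi.single j 1))⁻¹ ∧
    lg (fx V) (x, t, .inl j) 1 = (WW V t x j)⁻¹ ∧
    lg (fx V) (x, t, .inl j) 2 = tv (fx V) t x ∧
    lg (fx V) (x, t, .inl j) 3 = WW V (t + 1) x j := by
  refine ⟨?_, ?_, ?_, ?_⟩
  · show opt (fx V) (vT L t) (x + Pi.single j 1) false = _
    rw [opt_vT]; rfl
  · show opt (fx V) (vS L t j) (x + 0) false = _
    rw [opt_vS, add_zero]; rfl
  · show opt (fx V) (vT L t) (x + 0) true = _
    rw [opt_vT, add_zero]; rfl
  · show opt (fx V) (vS L (t + 1) j) (x + 0) true = _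
    rw [opt_vS, add_zero]; rfl

lemma lgS (V : Links L → G) (x : Sp L) (t : Fin L) (m : Fin 3) :
    lg (fx V) (x, t, .inr m) 0 = WW V t (x + Pi.single (pi1 m) 1) (pi2 m) ∧
    lg (fx V) (x, t, .inr m) 1 = (WW V t (x + Pi.single (pi2 m) 1) (pi1 m))⁻¹ ∧
    lg (fx V) (x, t, .inr m) 2 = (WW V t x (pi2 m))⁻¹ ∧
    lg (fx V) (x, t, .inr m) 3 = WW V t x (pi1 m) := by
  refine ⟨?_, ?_, ?_, ?_⟩
  · show opt (fx V) (vS L t (pi2 m)) (x + Pi.single (pi1 m) 1) true = _
    rw [opt_vS]; rfl
  · show opt (fx V) (vS L t (pi1 m)) (x + Pi.single (pi2 m) 1) false = _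
    rw [opt_vS]; rfl
  · show opt (fx V) (vS L t (pi2 m)) (x + 0) false = _
    rw [opt_vS, add_zero]; rfl
  · show opt (fx V) (vS L t (pi1 m)) (x + 0) true = _
    rw [opt_vS, add_zero]; rfl

lemma tr_congr {a b : G} (h : a = b) : (trace (1 - mt a)).re = (trace (1 - mt b)).re := by rw [h]

lemma plaq_T (hL : 2 ≤ L) {T : Mt N} {e : ℝ → G}
    (he : ∀ t, mt (e t) = NormedSpace.exp (t • T)) (ε : ℝ) (V : Links L → G) (x : Sp L)
    (t : Fin L) (j : Fin 3) :
    (trace (1 - mt (tplaq e ε (Psi e ε V) t x j))).re =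
      (trace (1 - mt (bg e (al L (.inl j) * ε) (ta t (.inl j) * ε)
        (lg (fx V) (x, t, .inl j))))).re := by
  obtain ⟨g0, g1, g2, g3⟩ := lgT V x t j
  have ht := t.2
  have h1 : tplaq e ε (Psi e ε V) t x j =
      ((gam V t x)⁻¹ * (tv (fx V) t x * WW V (t + 1) x j)) *
      ((bf e L ε (t + 1) j * (tv (fx V) t (x + Pi.single j 1))⁻¹ * (bf e L ε t j)⁻¹ *
        (WW V t x j)⁻¹) * gam V t x) := by
    unfold tplaq
    rw [tv_Psi e ε V ht, tv_Psi e ε V ht, sv_Psi hL (e_zero he) ε V (by omega),
      sv_Psi hL (e_zero he) ε V (by omega)]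
    group
  rw [h1, tr_cyc]
  refine tr_congr ?_
  unfold bg
  rw [g0, g1, g2, g3]
  have h2 : bf e L ε (t + 1) j = e (al L (.inl j) * ε) * e (ta t (.inl j) * ε) := by
    unfold bf al ta
    by_cases hj : j = 0
    · subst hj
      rw [if_pos rfl, if_pos rfl, ← e_add he]
      simp only [if_true]
      congr 1
      push_cast
      ring
    · rw [if_neg hj, if_neg (fun h => hj (Sum.inl_injective h))]
      simp only [if_neg hj, zero_mul, e_zero he, mul_one]
  have h3 : bf e L ε t j = e (ta t (.inl j) * ε) := by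
    unfold bf ta
    by_cases hj : j = 0
    · subst hj
      simp only [if_true]
      congr 1
      ring
    · simp only [if_neg hj, zero_mul, e_zero he]
  rw [h2, h3]
  group

lemma plaq_S (hL : 2 ≤ L) {T : Mt N} {e : ℝ → G}
    (he : ∀ t, mt (e t) = NormedSpace.exp (t • T)) (ε : ℝ) (V : Links L → G) (x : Sp L)
    (t : Fin L) (m : Fin 3) :
    (trace (1 - mt (splaq e ε (Psi e ε V) t x (pi1 m) (pi2 m)))).re =
      (trace (1 - mt (bg e (al L (.inr m) * ε) (ta t (.inr m) * ε)
        (lg (fx V) (x, t, .inr m))))).re := by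
  obtain ⟨g0, g1, g2, g3⟩ := lgS V x t m
  have ht := t.2
  have hb : bf e L ε t (pi2 m) = 1 := by
    unfold bf
    rw [if_neg]
    fin_cases m <;> simp [pi2]
  have h1 : splaq e ε (Psi e ε V) t x (pi1 m) (pi2 m) =
      ((gam V t x)⁻¹ * WW V t x (pi1 m)) *
      ((bf e L ε t (pi1 m) * WW V t (x + Pi.single (pi1 m) 1) (pi2 m) * (bf e L ε t (pi1 m))⁻¹ *
        (WW V t (x + Pi.single (pi2 m) 1) (pi1 m))⁻¹ * (WW V t x (pi2 m))⁻¹) * gam V t x) := by
    unfold splaq
    rw [sv_Psi hL (e_zero he) ε V (by omega), sv_Psi hL (e_zero he) ε V (by omega),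
      sv_Psi hL (e_zero he) ε V (by omega), sv_Psi hL (e_zero he) ε V (by omega), hb,
      add_right_comm x (Pi.single (pi2 m) 1) (Pi.single (pi1 m) 1)]
    group
  rw [h1, tr_cyc]
  refine tr_congr ?_
  unfold bg
  rw [g0, g1, g2, g3]
  have h2 : al L (.inr m) * ε = 0 := by
    unfold al
    rw [if_neg (by simp), zero_mul]
  have h3 : bf e L ε t (pi1 m) = e (ta t (.inr m) * ε) := by
    unfold bf ta
    by_cases hm : m = 2
    · subst hm
      have : pi1 2 ≠ 0 := by decide
      simp only [if_neg this, if_true, zero_mul, e_zero he]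
    · have : pi1 m = 0 := by
        fin_cases m
        · rfl
        · rfl
        · exact absurd rfl hm
      simp only [if_neg hm, if_pos this]
      congr 1
      ring
  rw [h2, h3, e_zero he]
  group

lemma plaq_L (hL : 2 ≤ L) (e : ℝ → G) (ε : ℝ) (U : Links L → G) (x : Sp L)
    {i j : Fin 3} (hij : i < j) : (trace (1 - mt (splaq e ε U L x i j))).re = 0 := by
  have h1 : ∀ y (k : Fin 3), sv e ε U L y k = if k = 0 then e (ε / L) else 1 := by
    intro y k
    unfold sv
    rw [dif_neg (by omega)]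
    simp
  have hj : j ≠ 0 := by
    intro h
    subst h
    exact absurd hij (by simp)
  have h2 : splaq e ε U L x i j = 1 := by
    unfold splaq
    rw [h1, h1, h1, h1, if_neg hj]
    group
  rw [h2, mt_one, sub_self, trace_zero, Complex.zero_re]

lemma sum_pl (f : Fin 3 → Fin 3 → ℝ) :
    (∑ i, ∑ j, if i < j then f i j else 0) = ∑ m, f (pi1 m) (pi2 m) := by
  simp [Fin.sum_univ_three, pi1, pi2]

lemma action_Psi [NeZero L] (hL : 2 ≤ L) {T : Mt N} {e : ℝ → G}
    (he : ∀ t, mt (e t) = NormedSpace.exp (t • T)) (ε : ℝ) (V : Links L → G) :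
    action e ε (Psi e ε V) = Sg e ε V := by
  unfold Pool.Agent.Y16.AF.action Sg
  rw [Fintype.sum_prod_type]
  refine Finset.sum_congr rfl fun x _ => ?_
  rw [Fintype.sum_prod_type, Finset.sum_range_succ]
  have h1 : (∑ i, ∑ j, if i < j then (trace (1 - mt (splaq e ε (Psi e ε V) L x i j))).re else 0)
      = 0 := by
    refine Finset.sum_eq_zero fun i _ => Finset.sum_eq_zero fun j _ => ?_
    split_ifs with h
    · exact plaq_L hL e ε _ x h
    · rfl
  rw [h1, add_zero, Finset.sum_range, Finset.sum_range, ← Finset.sum_add_distrib]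
  refine Finset.sum_congr rfl fun t _ => ?_
  rw [Fintype.sum_sum_type, sum_pl]
  refine congrArg₂ (· + ·) ?_ ?_
  · exact Finset.sum_congr rfl fun j _ => plaq_T hL he ε V x t j
  · exact Finset.sum_congr rfl fun m _ => plaq_S hL he ε V x t m

end alg

section cont

variable {N L : ℕ} {G : Subgroup (UU N)}

lemma mt_cont : Continuous (mt : G → Mt N) := continuous_subtype_val.comp continuous_subtype_val

lemma tv_cont (t : ℕ) (x : Sp L) : Continuous fun U : Links L → G => tv U t x := by
  unfold tv
  split_ifs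
  · exact continuous_apply _
  · exact continuous_const

lemma sv_cont (e : ℝ → G) (ε : ℝ) (t : ℕ) (x : Sp L) (j : Fin 3) :
    Continuous fun U : Links L → G => sv e ε U t x j := by
  unfold sv
  split_ifs
  · exact continuous_apply _
  · exact continuous_const
  · exact continuous_const

lemma PP_cont (t : ℕ) (x : Sp L) : Continuous fun U : Links L → G => PP U t x := by
  induction t with
  | zero => exact continuous_const
  | succ t ih => exact ih.mul (tv_cont t x)

lemma gam_cont (t : ℕ) (x : Sp L) : Continuous fun U : Links L → G => gam U t x := by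
  unfold gam
  split_ifs
  · exact (PP_cont L 0).inv.mul (PP_cont t x)
  · exact continuous_const

lemma ga_cont (w : Links L) : Continuous (ga (G := G) w) := by
  obtain ⟨x, t | s⟩ := w
  · exact (gam_cont (t : ℕ) x).inv
  · exact (gam_cont ((s.1 : ℕ) + 1) x).inv

lemma gb_cont (e : ℝ → G) (ε : ℝ) (w : Links L) : Continuous (gb (G := G) e ε w) := by
  obtain ⟨x, t | s⟩ := w
  · exact continuous_const
  · exact continuous_const.mul (gam_cont ((s.1 : ℕ) + 1) (x + Pi.single s.2 1))

lemma act_cont [NeZero L] (e : ℝ → G) (ε : ℝ) : Continuous (action (L := L) e ε) := by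
  have hm : ∀ {g : (Links L → G) → G}, Continuous g →
      Continuous fun U => (trace (1 - mt (g U))).re := fun hg =>
    Complex.continuous_re.comp (continuous_const.sub (mt_cont.comp hg)).matrix_trace
  have ht : ∀ t x j, Continuous fun U : Links L → G => tplaq e ε U t x j := fun t x j =>
    (((tv_cont t x).mul (sv_cont e ε _ x j)).mul (tv_cont t _).inv).mul (sv_cont e ε t x j).inv
  have hs : ∀ t x i j, Continuous fun U : Links L → G => splaq e ε U t x i j := fun t x i j =>
    (((sv_cont e ε t x i).mul (sv_cont e ε _ _ j)).mul (sv_cont e ε t _ i).inv).mul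
      (sv_cont e ε t x j).inv
  unfold Pool.Agent.Y16.AF.action
  refine continuous_finsetSum _ fun x _ => Continuous.add ?_ ?_
  · exact continuous_finsetSum _ fun t _ => continuous_finsetSum _ fun j _ => hm (ht t x j)
  · refine continuous_finsetSum _ fun t _ => continuous_finsetSum _ fun i _ =>
      continuous_finsetSum _ fun j _ => ?_
    split_ifs
    · exact hm (hs t x i j)
    · exact continuous_const

end cont

theorem af_gauge : S_GAUGE := by
  intro N G hG _ _ μ _ _ T e he L _ hL β ε
  have : CompactSpace (UU N) := by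
    have h1 : IsCompact (UU N : Set (Mt N)) := by
      have h2 : IsCompact (Set.pi Set.univ fun _ : Fin N => Set.pi Set.univ fun _ : Fin N =>
          Metric.closedBall (0 : ℂ) 1) :=
        isCompact_univ_pi fun _ => isCompact_univ_pi fun _ => isCompact_closedBall _ _
      refine IsCompact.of_isClosed_subset h2 ?_ ?_
      · have h3 : (UU N : Set (Mt N)) = {A | A * star A = 1} := by
          ext A
          exact Matrix.mem_unitaryGroup_iff
        rw [h3]
        exact isClosed_eq (continuous_id.mul continuous_star) continuous_const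
      · intro A hA i _ j _
        rw [mem_closedBall_zero_iff]
        exact entry_norm_bound_of_unitary hA i j
    exact isCompact_iff_compactSpace.1 h1
  have : SecondCountableTopology (Mt N) :=
    inferInstanceAs (SecondCountableTopology (Fin N → Fin N → ℂ))
  have : CompactSpace G := by
    have h1 : IsCompact (G : Set (UU N)) := hG.isCompact
    exact isCompact_iff_compactSpace.1 h1
  have h00 : SecondCountableTopology (UU N) := TopologicalSpace.Subtype.secondCountableTopology _
  have : SecondCountableTopology G := TopologicalSpace.Subtype.secondCountableTopology _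
  have : μ.IsMulRightInvariant := by
    refine ⟨fun g => ?_⟩
    have h1 : IsProbabilityMeasure (Measure.map (fun x => x * g) μ) :=
      Measure.isProbabilityMeasure_map (measurable_mul_const g).aemeasurable
    exact Measure.isHaarMeasure_eq_of_isProbabilityMeasure _ _
  have hF : Continuous fun U : Links L → G => Real.exp (-(β * action e ε U)) :=
    Real.continuous_exp.comp (continuous_const.mul (act_cont e ε)).neg
  have key := Pool.Agent.W793.YM.integral_skew (E := Links L) μ (fun w => dyn w) hF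
    (a := ga) (b := gb e ε) ga_cont (gb_cont e ε)
    (fun w V V' h => by
      have h' : ∀ w, ¬dyn w → V w = V' w := h
      obtain ⟨x, t | s⟩ := w
      · show (gam V t x)⁻¹ = (gam V' t x)⁻¹
        rw [gam_dep h']
      · show (gam V (s.1 + 1) x)⁻¹ = (gam V' (s.1 + 1) x)⁻¹
        rw [gam_dep h'])
    (fun w V V' h => by
      have h' : ∀ w, ¬dyn w → V w = V' w := h
      obtain ⟨x, t | s⟩ := w
      · rfl
      · show bf e L ε (s.1 + 1) s.2 * gam V (s.1 + 1) (x + Pi.single s.2 1) =
          bf e L ε (s.1 + 1) s.2 * gam V' (s.1 + 1) (x + Pi.single s.2 1)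
        rw [gam_dep h'])
  unfold Z
  refine key.symm.trans ?_
  refine integral_congr_ae (Filter.Eventually.of_forall fun V => ?_)
  show Real.exp (-(β * action e ε (Psi e ε V))) = Real.exp (-(β * Sg e ε V))
  rw [action_Psi hL he]

end

end Pool.Agent.Y781.AF
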